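import Pool.Agent.H13.TQ.Stm

namespace Pool.Agent.H97.TQ

open MeasureTheory Filter Topology Finset Pool.Agent.H13.TQ

noncomputable section

theorem B1 : SB1 := by
  intro n _ hn
  refine ⟨⟨Or.inl rfl, ?_, ?_⟩, ?_, ?_⟩
  · rintro s (rfl | ⟨j, rfl⟩ | ⟨j, hj, rfl⟩)
    · simp
    · simp
    · simp [hj.symm]
  · rintro j s (h | ⟨i, h⟩ | ⟨i, hi, h⟩)
    · cases h
    · cases h
      exact Or.inl rfl
    · cases h
      exact Or.inr (Or.inl ⟨i, rfl⟩)
  · have h : Tn n ⊆ {[]} ∪ (Set.range fun j : Fin n => [j]) ∪ (Set.range fun j : Fin n => [0, j]) := by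
      rintro s (rfl | ⟨j, rfl⟩ | ⟨j, hj, rfl⟩)
      · left; left; rfl
      · left; right; exact ⟨j, rfl⟩
      · right; exact ⟨j, rfl⟩
    exact (((Set.finite_singleton _).union (Set.finite_range _)).union (Set.finite_range _)).subset h
  · unfold numNbr
    have h : {j : Fin n | [j] ∈ Tn n} = Set.univ := by
      ext j
      simp only [Set.mem_univ, iff_true]
      exact Or.inr (Or.inl ⟨j, rfl⟩)
    rw [h, Set.ncard_univ]
    simp

end

end Pool.Agent.H97.TQ
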