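import Pool.Agent.H13.TQ.Stm

namespace Pool.Agent.H97.TQ

open MeasureTheory Filter Topology Finset Pool.Agent.H13.TQ

noncomputable section

lemma exp13 : Real.exp 13 < 999999 := by
  have h : Real.exp 13 = Real.exp 1 ^ 13 := by
    rw [← Real.exp_nat_mul]; norm_num
  rw [h]
  have h1 : Real.exp 1 ^ 13 ≤ 2.7182818286 ^ 13 :=
    pow_le_pow_left₀ (Real.exp_pos _).le Real.exp_one_lt_d9.le 13
  refine h1.trans_lt ?_
  norm_num

lemma exp14 : 999999 < Real.exp 14 := by
  have h : Real.exp 14 = Real.exp 1 ^ 14 := by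
    rw [← Real.exp_nat_mul]; norm_num
  rw [h]
  have h1 : 2.7182818283 ^ 14 ≤ Real.exp 1 ^ 14 :=
    pow_le_pow_left₀ (by norm_num) Real.exp_one_gt_d9.le 14
  refine lt_of_lt_of_le ?_ h1
  norm_num

lemma L_gt : 13 < L := by
  unfold L M
  rw [Real.lt_log_iff_exp_lt (by norm_num)]
  exact exp13

lemma L_lt : L < 14 := by
  unfold L M
  rw [Real.log_lt_iff_lt_exp (by norm_num)]
  exact exp14

lemma Lam_re : Lam.re = L := by
  unfold Lam; simp

lemma Lam_im : Lam.im = -Real.pi := by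
  unfold Lam; simp

lemma Lam_norm : ‖Lam‖ < 15 := by
  rw [Complex.norm_def, Real.sqrt_lt' (by norm_num), Complex.normSq_apply, Lam_re, Lam_im]
  have := Real.pi_lt_d2
  have := Real.pi_pos
  have := L_lt
  have := L_gt
  nlinarith

theorem D0 : SD0 := by
  refine ⟨L_gt, L_lt, Lam_norm, ?_, ?_⟩
  · have h1 : -Lam = ((-L : ℝ) : ℂ) + (Real.pi : ℂ) * Complex.I := by
      unfold Lam; push_cast; ring
    rw [h1, Complex.exp_add, Complex.exp_pi_mul_I, ← Complex.ofReal_exp, Real.exp_neg]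
    unfold L
    rw [Real.exp_log (by unfold M; norm_num)]
    have : (M : ℂ) ≠ 0 := by unfold M; norm_num
    push_cast
    field_simp
  · intro j l
    unfold q
    rw [Complex.norm_exp, ← Real.exp_nat_mul]
    congr 1
    have h1 : (-Lam / (nR : ℂ) ^ j).re = -L / nR ^ j := by
      have : (-Lam / (nR : ℂ) ^ j) = (-Lam) / ((nR ^ j : ℝ) : ℂ) := by push_cast; rfl
      rw [this, Complex.div_ofReal_re, Complex.neg_re, Lam_re]
    rw [h1]
    ring

/-- `fac - 1` -/
def af (y : ℝ) (i : ℕ) : ℂ := fac y i - 1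

lemma af_eq (y : ℝ) (i : ℕ) : af y i =
    (M : ℂ) / (nR : ℂ) * (Complex.exp (-Lam * (y : ℂ) / (nR : ℂ) ^ i) - 1) := by
  unfold af fac
  have h1 : (nR : ℂ) ≠ 0 := by unfold nR; norm_num
  have h2 : (M : ℂ) + 1 = (nR : ℂ) := by unfold M nR; norm_num
  field_simp
  linear_combination h2

lemma arg_norm (y : ℝ) (hy : 0 ≤ y) (i : ℕ) :
    ‖-Lam * (y : ℂ) / (nR : ℂ) ^ i‖ ≤ 15 * y * (1 / nR) ^ i := by
  rw [norm_div, norm_mul, norm_neg, Complex.norm_real, norm_pow, Complex.norm_real,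
    Real.norm_of_nonneg hy, Real.norm_of_nonneg (by unfold nR; norm_num : (0:ℝ) ≤ nR)]
  have h1 : 0 < nR ^ i := pow_pos (by unfold nR; norm_num) i
  rw [one_div, inv_pow, div_eq_mul_inv]
  apply mul_le_mul_of_nonneg_right _ (inv_nonneg.2 h1.le)
  exact mul_le_mul_of_nonneg_right Lam_norm.le hy

lemma MnR : ‖(M : ℂ) / (nR : ℂ)‖ ≤ 1 := by
  unfold M nR
  rw [norm_div, Complex.norm_real, Complex.norm_real]
  norm_num

lemma exp_sub_one_le (w : ℂ) : ‖Complex.exp w - 1‖ ≤ ‖w‖ * Real.exp ‖w‖ := by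
  have h := Complex.norm_exp_sub_sum_le_norm_mul_exp w 1
  simpa using h

lemma geo_summ : Summable fun i : ℕ => (1 / nR) ^ i :=
  summable_geometric_of_lt_one (by unfold nR; norm_num) (by unfold nR; norm_num)

lemma af_summ (y : ℝ) (hy : 0 ≤ y) : Summable fun i => ‖af y i‖ := by
  refine Summable.of_nonneg_of_le (fun i => norm_nonneg _) (fun i => ?_)
    (geo_summ.mul_left (15 * y * Real.exp (15 * y)))
  rw [af_eq, norm_mul]
  have h1 := arg_norm y hy i
  have h2 : (1 / nR) ^ i ≤ 1 := pow_le_one₀ (by unfold nR; norm_num) (by unfold nR; norm_num)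
  have h3 : 15 * y * (1 / nR) ^ i ≤ 15 * y := mul_le_of_le_one_right (by positivity) h2
  set w := -Lam * (y : ℂ) / (nR : ℂ) ^ i
  have h0 : 0 ≤ (1 / nR) ^ i := pow_nonneg (by unfold nR; norm_num) i
  calc ‖(M : ℂ) / (nR : ℂ)‖ * ‖Complex.exp w - 1‖ ≤ 1 * (‖w‖ * Real.exp ‖w‖) :=
        mul_le_mul MnR (exp_sub_one_le w) (norm_nonneg _) zero_le_one
    _ ≤ (15 * y * (1 / nR) ^ i) * Real.exp (15 * y) := by
        rw [one_mul]
        exact mul_le_mul h1 (Real.exp_le_exp.2 (h1.trans h3)) (Real.exp_pos _).le (by positivity)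
    _ = _ := by ring

theorem D1 : SD1 := by
  intro y hy
  have h1 : Multipliable fun i => 1 + af y i := multipliable_one_add_of_summable (af_summ y hy)
  have h2 := h1.hasProd.tendsto_prod_nat
  have h3 : (fun J : ℕ => ∏ i ∈ range J, (1 + af y i)) = fun J => ∏ i ∈ range J, fac y i := by
    funext J
    exact Finset.prod_congr rfl fun i _ => by unfold af; ring
  rw [h3] at h2
  exact tendsto_nhds_limUnder ⟨_, h2⟩

theorem D2 : SD2 := by
  intro y hy
  have hn : (0:ℝ) < nR := by unfold nR; norm_num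
  have h1 := D1 y hy
  have h2 := (D1 (y / nR) (by positivity)).const_mul (fac y 0)
  have h3 := (tendsto_add_atTop_iff_nat 1).2 h1
  refine tendsto_nhds_unique h3 (h2.congr fun J => ?_)
  rw [Finset.prod_range_succ', mul_comm]
  congr 1
  refine Finset.prod_congr rfl fun i _ => ?_
  unfold fac
  congr 4
  have : (nR : ℂ) ≠ 0 := by exact_mod_cast hn.ne'
  push_cast
  rw [pow_succ]
  field_simp

theorem D3 : SD3 := by
  intro y hy hy1
  have h1 := D1 y hy
  have key : ∀ J : ℕ, ‖∏ i ∈ range J, fac y i - 1‖ ≤ 40 * y := by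
    intro J
    have h2 : ∏ i ∈ range J, fac y i = ∏ i ∈ range J, (1 + af y i) :=
      Finset.prod_congr rfl fun i _ => by unfold af; ring
    rw [h2]
    refine (Finset.norm_prod_one_add_sub_one_le (range J) (af y)).trans ?_
    have h3 : ∀ i, ‖af y i‖ ≤ 30 * y * (1 / nR) ^ i := by
      intro i
      rw [af_eq, norm_mul]
      have h4 := arg_norm y hy i
      have h5 : (1 / nR) ^ i ≤ 1 := pow_le_one₀ (by unfold nR; norm_num) (by unfold nR; norm_num)
      have h6 : 15 * y * (1 / nR) ^ i ≤ 15 * y := mul_le_of_le_one_right (by positivity) h5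
      have h7 := Complex.norm_exp_sub_one_le (x := -Lam * (y : ℂ) / (nR : ℂ) ^ i) (by linarith)
      calc _ ≤ 1 * (2 * ‖-Lam * (y : ℂ) / (nR : ℂ) ^ i‖) :=
            mul_le_mul MnR h7 (norm_nonneg _) zero_le_one
        _ ≤ _ := by linarith
    have h4 : ∑ i ∈ range J, ‖af y i‖ ≤ 301 / 10 * y := by
      calc ∑ i ∈ range J, ‖af y i‖ ≤ ∑ i ∈ range J, 30 * y * (1 / nR) ^ i :=
            Finset.sum_le_sum fun i _ => h3 i
        _ = 30 * y * ∑ i ∈ range J, (1 / nR) ^ i := (Finset.mul_sum _ _ _).symm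
        _ ≤ 30 * y * ∑' i : ℕ, (1 / nR) ^ i := by
            apply mul_le_mul_of_nonneg_left _ (by positivity)
            exact geo_summ.sum_le_tsum _ (fun i _ => pow_nonneg (by unfold nR; norm_num) i)
        _ ≤ 301 / 10 * y := by
            rw [tsum_geometric_of_lt_one (by unfold nR; norm_num) (by unfold nR; norm_num)]
            have : (1 - 1 / nR)⁻¹ ≤ 301 / 300 := by unfold nR; norm_num
            nlinarith
    set x := ∑ i ∈ range J, ‖af y i‖ with hx
    have hx0 : 0 ≤ x := Finset.sum_nonneg fun i _ => norm_nonneg _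
    have hx1 : x ≤ 301 / 1000 := by linarith
    have h5 := Real.abs_exp_sub_one_sub_id_le (x := x) (by rw [abs_of_nonneg hx0]; linarith)
    have h6 := le_abs_self (Real.exp x - 1 - x)
    nlinarith
  have h2 : Tendsto (fun J : ℕ => ‖∏ i ∈ range J, fac y i - 1‖) atTop (𝓝 ‖Psi y - 1‖) :=
    (h1.sub_const 1).norm
  exact le_of_tendsto' h2 key

end

end Pool.Agent.H97.TQ
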